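import Pool.Agent.Lib.MP_4a593f_gt.BH.Gl.Loc
import Pool.Agent.Lib.MP_4a593f_gt.BH.LWz

/-!
Row Gl/Part: `∑_i ∫ ⟨dχ_i, dφ⟩ = 0`, from `∑_i χ_i = 1` and `d1 = 0`.
-/

open scoped Manifold ContDiff Bundle Topology Matrix
open MeasureTheory

noncomputable section

universe u

namespace BH

variable {n p : ℕ} {M : Type u} [TopologicalSpace M] [ChartedSpace (E n) M]

/-- a function as a `0`-form, in a chart -/
theorem loc_f0 (e : OpenPartialHomeomorph M (E n)) (a : M → ℝ) :
    loc e (f0 (n := n) a) = c0 fun z => a (e.symm z) := by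
  funext y
  ext v
  rfl

theorem f0_apply_nil (a : M → ℝ) (x : M) (v : Fin 0 → E n) : f0 (n := n) a x v = a x := rfl

variable [IsManifold 𝓘(ℝ, E n) ∞ M]

/-- a smooth function as an element of `Om S 0` -/
def om0 (S : Sys n M) (a : M → ℝ) (ha : SmF n a) : Om S 0 := Om.of S (f0 a) (smooth_f0 ha)

omit [IsManifold 𝓘(ℝ, E n) ∞ M] in
theorem dM_f0_const (c : ℝ) : dM (f0 (n := n) (M := M) fun _ => c) = 0 := by
  funext x
  unfold dM
  rw [loc_f0]
  have h : extDeriv (c0 (n := n) fun _ => c) (chartAt (E n) x x) = 0 := by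
    have h1 : (c0 (n := n) fun _ => c) = fun _ =>
        ContinuousAlternatingMap.constOfIsEmpty ℝ (E n) (Fin 0) c := rfl
    rw [h1]
    unfold extDeriv
    rw [fderiv_fun_const]
    ext v
    simp [ContinuousAlternatingMap.alternatizeUncurryFin_apply]
  rw [h]
  ext v
  rfl

theorem dM_f0_off (C : Cover n M) (i : Fin C.N) {x : M}
    (h : dM (f0 (n := n) (C.χ i)) x ≠ 0) : x ∈ (C.ch i).symm '' C.K i := by
  by_contra hx
  rw [symm_image_K] at hx
  refine h (dM_off (O := (tsupport (C.χ i))ᶜ) (isClosed_tsupport _).isOpen_compl ?_ hx)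
  intro z hz
  have hz0 : C.χ i z = 0 := image_eq_zero_of_notMem_tsupport hz
  ext v
  exact hz0

/-- the underlying form of a finite sum -/
theorem om_f_sum {S : Sys n M} {q : ℕ} {ι : Type*} (s : Finset ι) (a : ι → Om S q) :
    (∑ i ∈ s, a i).f = ∑ i ∈ s, (a i).f := by
  classical
  induction s using Finset.induction_on with
  | empty => rfl
  | insert i s hi ih => rw [Finset.sum_insert hi, Finset.sum_insert hi, Om.f_add, ih]

variable [CompactSpace M] [T2Space M]

omit [CompactSpace M] [T2Space M] in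
theorem sum_om0 (S : Sys n M) :
    ∑ i, om0 S (S.C.χ i) (S.C.smooth i) = om0 S (fun _ => 1) (smF_const 1) := by
  refine Om.ext ?_
  rw [om_f_sum]
  funext x
  rw [Finset.sum_apply]
  ext v
  have h1 : ∀ s : Finset (Fin S.C.N), (∑ i ∈ s, (om0 S (S.C.χ i) (S.C.smooth i)).f x) v =
      ∑ i ∈ s, S.C.χ i x := by
    intro s
    classical
    induction s using Finset.induction_on with
    | empty => rfl
    | insert i s hi ih =>
      rw [Finset.sum_insert hi, Finset.sum_insert hi, ← ih]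
      rfl
  rw [h1, S.C.sum x]
  rfl

theorem sum_part (S : Sys n M) {φ : M → ℝ} (hφ : SmF n φ) :
    ∑ i, ∫ y in (S.C.ch i).target, ipG (gmat (gloc (S.C.ch i) S.g) y)
      (extDeriv (c0 fun z => S.C.χ i ((S.C.ch i).symm z)) y)
      (extDeriv (c0 fun z => φ ((S.C.ch i).symm z)) y) * vol (gloc (S.C.ch i) S.g) y = 0 := by
  have h1 : ∀ i, ∫ y in (S.C.ch i).target, ipG (gmat (gloc (S.C.ch i) S.g) y)
      (extDeriv (c0 fun z => S.C.χ i ((S.C.ch i).symm z)) y)
      (extDeriv (c0 fun z => φ ((S.C.ch i).symm z)) y) * vol (gloc (S.C.ch i) S.g) y =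
      inner ℝ (dO S 0 (om0 S φ hφ)) (dO S 0 (om0 S (S.C.χ i) (S.C.smooth i))) := by
    intro i
    rw [inner_chart (dO S 0 (om0 S φ hφ)) (dO S 0 (om0 S (S.C.χ i) (S.C.smooth i)))
      (S.C.mem i) (S.C.K_compact i) (S.C.K_subset i) (fun x hx => dM_f0_off S.C i hx)]
    refine setIntegral_congr_fun (S.C.ch i).open_target.measurableSet fun y hy => ?_
    have hg : (gmat (gloc (S.C.ch i) S.g) y)ᵀ = gmat (gloc (S.C.ch i) S.g) y :=
      gmat_symm (isMet_gloc S.g (S.C.mem i)) hy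
    have h2 : loc (S.C.ch i) (dO S 0 (om0 S φ hφ)).f y =
        extDeriv (c0 fun z => φ ((S.C.ch i).symm z)) y := by
      rw [← loc_f0]
      exact loc_dM (smooth_f0 hφ) (S.C.mem i) hy
    have h3 : loc (S.C.ch i) (dO S 0 (om0 S (S.C.χ i) (S.C.smooth i))).f y =
        extDeriv (c0 fun z => S.C.χ i ((S.C.ch i).symm z)) y := by
      rw [← loc_f0]
      exact loc_dM (smooth_f0 (S.C.smooth i)) (S.C.mem i) hy
    change _ = ipG (gmat (gloc (S.C.ch i) S.g) y)
      (loc (S.C.ch i) (dO S 0 (om0 S φ hφ)).f y)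
      (loc (S.C.ch i) (dO S 0 (om0 S (S.C.χ i) (S.C.smooth i))).f y) *
      vol (gloc (S.C.ch i) S.g) y
    rw [h2, h3, ipG_comm hg]
  rw [Finset.sum_congr rfl fun i _ => h1 i, ← inner_sum, ← map_sum, sum_om0]
  have h4 : dO S 0 (om0 S (fun _ => (1 : ℝ)) (smF_const 1)) = 0 := Om.ext (dM_f0_const 1)
  rw [h4, inner_zero_right]

/-- the same with `φ = |f|²` as it appears in `locB` -/
theorem sum_part_ip (S : Sys n M) (f : Om S p) :
    ∑ i, ∫ y in (S.C.ch i).target, ipG (gmat (gloc (S.C.ch i) S.g) y)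
      (extDeriv (c0 fun z => S.C.χ i ((S.C.ch i).symm z)) y)
      (extDeriv (c0 fun z => ipG (gmat (gloc (S.C.ch i) S.g) z) (loc (S.C.ch i) f.f z)
        (loc (S.C.ch i) f.f z)) y) * vol (gloc (S.C.ch i) S.g) y = 0 := by
  rw [← sum_part S (smF_ipM S.g f.smooth f.smooth)]
  refine Finset.sum_congr rfl fun i _ => ?_
  refine setIntegral_congr_fun (S.C.ch i).open_target.measurableSet fun y hy => ?_
  have h1 : (c0 fun z => ipG (gmat (gloc (S.C.ch i) S.g) z) (loc (S.C.ch i) f.f z)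
      (loc (S.C.ch i) f.f z)) =ᶠ[𝓝 y]
      (c0 fun z => ipM S.g f.f f.f ((S.C.ch i).symm z)) := by
    filter_upwards [(S.C.ch i).open_target.mem_nhds hy] with z hz
    exact congrArg (ContinuousAlternatingMap.constOfIsEmpty ℝ (E n) (Fin 0))
      (ipM_chart S.g (S.C.mem i) f.f f.f hz).symm
  change _ * _ = _ * _
  rw [h1.extDeriv_eq]

end BH
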