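import Pool.Agent.Lib.MP_4a593f_gt.BH.LWz
import Pool.Agent.Lib.MP_4a593f_gt.BH.Int

/-!
Row Gl/Unif: a uniform lower bound for the curvature term on compact sets.
-/

open scoped Manifold ContDiff Bundle Topology Matrix
open MeasureTheory

noncomputable section

universe u

namespace BH

variable {n p : ℕ} {U : Set (E n)} {G : Fin n → Fin n → E n → ℝ}

theorem wz_smul (G : Fin n → Fin n → E n → ℝ) (y : E n) (t : ℝ) (a : Alt n (p + 1)) :
    wz G y (t • a) = t • wz G y a := by
  unfold wz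
  simp only [map_smul, smul_neg, Finset.smul_sum]

theorem rmat_smooth (hU : IsOpen U) (hG : IsMet U G) (k j l i : Fin n) :
    ContDiffOn ℝ ∞ (fun y => rmat G k j y l i) U := by
  have h : (fun y => rmat G k j y l i) = fun y => pd k (chr G l j i) y - pd j (chr G l k i) y +
      ∑ a, (chr G l k a y * chr G a j i y - chr G l j a y * chr G a k i y) := rfl
  rw [h]
  refine ((smooth_pd hU k (chr_smooth hU hG l j i)).sub
    (smooth_pd hU j (chr_smooth hU hG l k i))).add (ContDiffOn.sum fun a _ => ?_)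
  exact ((chr_smooth hU hG l k a).mul (chr_smooth hU hG a j i)).sub
    ((chr_smooth hU hG l j a).mul (chr_smooth hU hG a k i))

/-! ### Continuity in the base point and the form -/

section Cont

variable {X : Type*} [TopologicalSpace X] {S : Set X}

theorem cont_lin {q : ℕ} (L : Alt n p →ₗ[ℝ] Alt n q) {f : X → Alt n p}
    (hf : ContinuousOn f S) : ContinuousOn (fun z => L (f z)) S :=
  (L.continuous_of_finiteDimensional).comp_continuousOn hf

theorem cont_act {A : X → Matrix (Fin n) (Fin n) ℝ} (hA : ∀ i j, ContinuousOn (fun z => A z i j) S)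
    {f : X → Alt n (p + 1)} (hf : ContinuousOn f S) :
    ContinuousOn (fun z => act (A z) (f z)) S := by
  have h : (fun z => act (A z) (f z)) =
      fun z => -∑ i, ∑ l, A z l i • eps i (iot l (f z)) := by
    funext z
    simp [act]
  rw [h]
  exact (continuousOn_finsetSum _ fun i _ => continuousOn_finsetSum _ fun l _ =>
    (hA l i).smul (cont_lin (eps i) (cont_lin (iot l) hf))).neg

theorem cont_iou {A : X → Matrix (Fin n) (Fin n) ℝ}
    (hA : ∀ i j, ContinuousOn (fun z => (A z)⁻¹ i j) S) (k : Fin n)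
    {f : X → Alt n (p + 1)} (hf : ContinuousOn f S) :
    ContinuousOn (fun z => iou (A z) k (f z)) S := by
  have h : (fun z => iou (A z) k (f z)) = fun z => ∑ j, (A z)⁻¹ k j • iot j (f z) := by
    funext z
    simp [iou]
  rw [h]
  exact continuousOn_finsetSum _ fun j _ => (hA k j).smul (cont_lin (iot j) hf)

theorem cont_arr {f : X → Alt n p} (hf : ContinuousOn f S) (I : Fin p → Fin n) :
    ContinuousOn (fun z => arr (f z) I) S := (arr_cont I).comp_continuousOn hf

theorem cont_ipG {A : X → Matrix (Fin n) (Fin n) ℝ}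
    (hA : ∀ i j, ContinuousOn (fun z => (A z)⁻¹ i j) S)
    {f h : X → Alt n p} (hf : ContinuousOn f S) (hh : ContinuousOn h S) :
    ContinuousOn (fun z => ipG (A z) (f z) (h z)) S := by
  unfold ipG ip0
  refine continuousOn_const.mul (continuousOn_finsetSum _ fun I _ => ?_)
  refine ContinuousOn.mul ?_ (cont_arr hh I)
  simp only [arr_pb]
  exact continuousOn_finsetSum _ fun J _ =>
    (continuousOn_finsetProd _ fun s _ => hA _ _).mul (cont_arr hf J)

end Cont

theorem inv_cont_fst (hG : IsMet U G) {q : ℕ} (i j : Fin n) :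
    ContinuousOn (fun z : E n × Alt n q => (gmat G z.1)⁻¹ i j) (U ×ˢ Set.univ) :=
  (hG.inv_smooth i j).continuousOn.comp continuous_fst.continuousOn fun _ hz => hz.1

/-- the curvature term is jointly continuous -/
theorem wz_cont (hU : IsOpen U) (hG : IsMet U G) :
    ContinuousOn (fun z : E n × Alt n (p + 1) => ipG (gmat G z.1) (wz G z.1 z.2) z.2)
      (U ×ˢ Set.univ) := by
  refine cont_ipG (A := fun z : E n × Alt n (p + 1) => gmat G z.1) (inv_cont_fst hG) ?_
    continuous_snd.continuousOn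
  unfold wz
  refine (continuousOn_finsetSum _ fun k _ => continuousOn_finsetSum _ fun j _ => ?_).neg
  refine cont_lin (eps k) (cont_iou (A := fun z : E n × Alt n (p + 1) => gmat G z.1)
    (inv_cont_fst hG) j (cont_act (A := fun z : E n × Alt n (p + 1) => rmat G k j z.1) ?_
      continuous_snd.continuousOn))
  intro l i
  exact (rmat_smooth hU hG k j l i).continuousOn.comp continuous_fst.continuousOn
    fun _ hz => hz.1

/-- the curvature term of a smooth form is continuous -/
theorem wz_cont_form (hU : IsOpen U) (hG : IsMet U G) {f : E n → Alt n (p + 1)}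
    (hf : ContDiffOn ℝ ∞ f U) :
    ContinuousOn (fun y => ipG (gmat G y) (wz G y (f y)) (f y)) U := by
  have hm : Set.MapsTo (fun y => (y, f y)) U (U ×ˢ Set.univ) := fun y hy => ⟨hy, trivial⟩
  have hp : ContinuousOn (fun y => (y, f y)) U := continuousOn_id.prodMk hf.continuousOn
  have h1 := ContinuousOn.comp (wz_cont (p := p) hU hG) hp hm
  simpa only [Function.comp_def] using h1

theorem wz_unif (hU : IsOpen U) (hG : IsMet U G) {K : Set (E n)} (hK : IsCompact K)
    (hKU : K ⊆ U)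
    (h : ∀ y ∈ K, ∀ a : Alt n (p + 1), a ≠ 0 → 0 < ipG (gmat G y) (wz G y a) a) :
    ∃ c : ℝ, 0 < c ∧ ∀ y ∈ K, ∀ a : Alt n (p + 1),
      c * ipG (gmat G y) a a ≤ ipG (gmat G y) (wz G y a) a := by
  haveI : ProperSpace (Alt n (p + 1)) := FiniteDimensional.proper ℝ (Alt n (p + 1))
  set T : Set (E n × Alt n (p + 1)) := K ×ˢ Metric.sphere (0 : Alt n (p + 1)) 1 with hT
  have hTc : IsCompact T := hK.prod (isCompact_sphere _ _)
  have hTU : T ⊆ U ×ˢ Set.univ := fun z hz => ⟨hKU hz.1, trivial⟩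
  have hne : ∀ z ∈ T, z.2 ≠ 0 := by
    rintro ⟨y, a⟩ ⟨hy, ha⟩ h0
    simp only at h0
    subst h0
    simp at ha
  have hpos : ∀ z ∈ T, 0 < ipG (gmat G z.1) (wz G z.1 z.2) z.2 := fun z hz =>
    h z.1 hz.1 z.2 (hne z hz)
  have hc1 := (wz_cont (p := p) hU hG).mono hTU
  have hc2 : ContinuousOn (fun z : E n × Alt n (p + 1) => ipG (gmat G z.1) z.2 z.2) T :=
    (cont_ipG (A := fun z : E n × Alt n (p + 1) => gmat G z.1) (inv_cont_fst hG)
      continuous_snd.continuousOn continuous_snd.continuousOn).mono hTU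
  obtain ⟨C, hC⟩ := hTc.exists_bound_of_continuousOn
    (hc2.div hc1 fun z hz => (hpos z hz).ne')
  have hD : 0 < max C 1 := lt_of_lt_of_le one_pos (le_max_right _ _)
  refine ⟨(max C 1)⁻¹, inv_pos.2 hD, fun y hy a => ?_⟩
  have hg0 : ∀ c : Alt n (p + 1), ipG (gmat G y) 0 c = 0 := by
    intro c
    have := ipG_smul_left (gmat G y) 0 (0 : Alt n (p + 1)) c
    rwa [zero_smul, zero_mul] at this
  rcases eq_or_ne a 0 with rfl | ha
  · have hw : wz G y (0 : Alt n (p + 1)) = 0 := by
      have := wz_smul G y 0 (0 : Alt n (p + 1))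
      rwa [zero_smul, zero_smul] at this
    rw [hw, hg0, mul_zero]
  · have hn : 0 < ‖a‖ := norm_pos_iff.2 ha
    set u : Alt n (p + 1) := ‖a‖⁻¹ • a with hu
    have hau : a = ‖a‖ • u := by
      rw [hu, smul_smul, mul_inv_cancel₀ hn.ne', one_smul]
    have hmem : (y, u) ∈ T := by
      refine ⟨hy, ?_⟩
      rw [mem_sphere_zero_iff_norm, hu, norm_smul, norm_inv, norm_norm, inv_mul_cancel₀ hn.ne']
    have hp := hpos (y, u) hmem
    have hb := hC (y, u) hmem
    simp only [Real.norm_eq_abs, Pi.div_apply] at hb hp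
    have hb2 := (le_abs_self _).trans (hb.trans (le_max_left C 1))
    rw [div_le_iff₀ hp] at hb2
    have h1 : ipG (gmat G y) a a = ‖a‖ ^ 2 * ipG (gmat G y) u u := by
      conv_lhs => rw [hau]
      rw [ipG_smul_left, ipG_smul_right]
      ring
    have h2 : ipG (gmat G y) (wz G y a) a = ‖a‖ ^ 2 * ipG (gmat G y) (wz G y u) u := by
      conv_lhs => rw [hau]
      rw [wz_smul, ipG_smul_left, ipG_smul_right]
      ring
    rw [h1, h2, inv_mul_le_iff₀ hD]
    calc ‖a‖ ^ 2 * ipG (gmat G y) u u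
        ≤ ‖a‖ ^ 2 * (max C 1 * ipG (gmat G y) (wz G y u) u) :=
          mul_le_mul_of_nonneg_left hb2 (by positivity)
      _ = max C 1 * (‖a‖ ^ 2 * ipG (gmat G y) (wz G y u) u) := by ring

variable {M : Type u} [TopologicalSpace M] [ChartedSpace (E n) M] [IsManifold 𝓘(ℝ, E n) ∞ M]
  [CompactSpace M] [T2Space M]

theorem wz_unif_cover (S : Sys n M)
    (h : ∀ e ∈ atlas (E n) M, ∀ y ∈ e.target, ∀ a : Alt n (p + 1), a ≠ 0 →
      0 < ipG (gmat (gloc e S.g) y) (wz (gloc e S.g) y a) a) :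
    ∃ c : ℝ, 0 < c ∧ ∀ i, ∀ y ∈ S.C.K i, ∀ a : Alt n (p + 1),
      c * ipG (gmat (gloc (S.C.ch i) S.g) y) a a ≤
        ipG (gmat (gloc (S.C.ch i) S.g) y) (wz (gloc (S.C.ch i) S.g) y a) a := by
  have h1 : ∀ i, ∃ c : ℝ, 0 < c ∧ ∀ y ∈ S.C.K i, ∀ a : Alt n (p + 1),
      c * ipG (gmat (gloc (S.C.ch i) S.g) y) a a ≤
        ipG (gmat (gloc (S.C.ch i) S.g) y) (wz (gloc (S.C.ch i) S.g) y a) a := fun i =>
    wz_unif (S.C.ch i).open_target (isMet_gloc S.g (S.C.mem i)) (S.C.K_compact i)
      (S.C.K_subset i) fun y hy a ha => h _ (S.C.mem i) y (S.C.K_subset i hy) a ha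
  choose c hc hle using h1
  rcases isEmpty_or_nonempty (Fin S.C.N) with hE | hN
  · exact ⟨1, one_pos, fun i => (hE.false i).elim⟩
  · obtain ⟨i0, hi0⟩ := Finite.exists_min c
    refine ⟨c i0, hc i0, fun i y hy a => ?_⟩
    have hnn : 0 ≤ ipG (gmat (gloc (S.C.ch i) S.g) y) a a :=
      ipG_self_nonneg ((isMet_gloc S.g (S.C.mem i)).pos y (S.C.K_subset i hy)) a
    exact (mul_le_mul_of_nonneg_right (hi0 i) hnn).trans (hle i y hy a)

end BH
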