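import Pool.Agent.Lib.MP_4a593f_gt.BH.Gl.DelC
import Pool.Agent.Lib.MP_4a593f_gt.BH.Gl.Part
import Pool.Agent.Lib.MP_4a593f_gt.BH.Gl.Unif

/-!
Row Gl/Est: the global Bochner estimate `c ‖f‖² ≤ ‖df‖² + ‖δf‖²`.
-/

open scoped Manifold ContDiff Bundle Topology Matrix
open MeasureTheory

noncomputable section

universe u

namespace BH

variable {n p : ℕ} {M : Type u} [TopologicalSpace M] [ChartedSpace (E n) M]
  [IsManifold 𝓘(ℝ, E n) ∞ M] [CompactSpace M] [T2Space M]

/-- abbreviation: the metric in the chart `i` -/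
abbrev Sys.G (S : Sys n M) (i : Fin S.C.N) : Fin n → Fin n → E n → ℝ := gloc (S.C.ch i) S.g

/-- the cut-off `χ_i` in its chart -/
abbrev Sys.x (S : Sys n M) (i : Fin S.C.N) (y : E n) : ℝ := S.C.χ i ((S.C.ch i).symm y)

theorem norm_sq_f (S : Sys n M) (f : Om S p) :
    ‖f‖ ^ 2 = ∑ i, ∫ y in (S.C.ch i).target, S.x i y *
      ipG (gmat (S.G i) y) (loc (S.C.ch i) f.f y) (loc (S.C.ch i) f.f y) * vol (S.G i) y := by
  rw [← real_inner_self_eq_norm_sq]
  conv_lhs => rw [← sum_mulO S f]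
  rw [inner_sum]
  refine Finset.sum_congr rfl fun i _ => ?_
  rw [sum_mulO S f, inner_chart f (mulO S p (S.C.χ i) (S.C.smooth i) f) (S.C.mem i)
    (S.C.K_compact i) (S.C.K_subset i) (fun x hx => fs_off S.C i f.f hx)]
  refine setIntegral_congr_fun (S.C.ch i).open_target.measurableSet fun y _ => ?_
  have h1 : loc (S.C.ch i) (mulO S p (S.C.χ i) (S.C.smooth i) f).f y =
      S.x i y • loc (S.C.ch i) f.f y := loc_fs (S.C.ch i) (S.C.χ i) f.f y
  simp only [h1, ipG_smul_right]

theorem norm_sq_dO (S : Sys n M) (f : Om S p) :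
    ‖dO S p f‖ ^ 2 = ∑ i, ∫ y in (S.C.ch i).target,
      ipG (gmat (S.G i) y) (extDeriv (loc (S.C.ch i) f.f) y)
        (extDeriv (fun z => S.x i z • loc (S.C.ch i) f.f z) y) * vol (S.G i) y := by
  rw [← real_inner_self_eq_norm_sq]
  have h0 : inner ℝ (dO S p f) (dO S p f) =
      ∑ i, inner ℝ (dO S p f) (dO S p (mulO S p (S.C.χ i) (S.C.smooth i) f)) := by
    rw [← inner_sum, ← map_sum, sum_mulO S f]
  rw [h0]
  refine Finset.sum_congr rfl fun i _ => ?_
  rw [inner_chart (dO S p f) (dO S p (mulO S p (S.C.χ i) (S.C.smooth i) f)) (S.C.mem i)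
    (S.C.K_compact i) (S.C.K_subset i) (fun x hx => dM_fs_off S.C i f.f hx)]
  refine setIntegral_congr_fun (S.C.ch i).open_target.measurableSet fun y hy => ?_
  have h1 : loc (S.C.ch i) (dO S p f).f y = extDeriv (loc (S.C.ch i) f.f) y :=
    loc_dM f.smooth (S.C.mem i) hy
  have h3 : loc (S.C.ch i) (mulO S p (S.C.χ i) (S.C.smooth i) f).f =
      fun z => S.x i z • loc (S.C.ch i) f.f z := by
    funext z
    exact loc_fs (S.C.ch i) (S.C.χ i) f.f z
  have h2 : loc (S.C.ch i) (dO S p (mulO S p (S.C.χ i) (S.C.smooth i) f)).f y =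
      extDeriv (fun z => S.x i z • loc (S.C.ch i) f.f z) y := by
    rw [← h3]
    exact loc_dM (mulO S p (S.C.χ i) (S.C.smooth i) f).smooth (S.C.mem i) hy
  simp only [h1, h2]

theorem norm_sq_del (S : Sys n M) (f : Om S (p + 1)) :
    ‖del S p f‖ ^ 2 = ∑ i, ∫ y in (S.C.ch i).target,
      ipG (gmat (S.G i) y) (codiff (S.G i) (loc (S.C.ch i) f.f) y)
        (codiff (S.G i) (fun z => S.x i z • loc (S.C.ch i) f.f z) y) * vol (S.G i) y := by
  rw [← real_inner_self_eq_norm_sq]
  have h0 : inner ℝ (del S p f) (del S p f) =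
      ∑ i, inner ℝ (del S p f) (del S p (mulO S (p + 1) (S.C.χ i) (S.C.smooth i) f)) := by
    rw [← inner_sum, ← map_sum, sum_mulO S f]
  rw [h0]
  refine Finset.sum_congr rfl fun i _ => ?_
  rw [inner_chart (del S p f) (del S p (mulO S (p + 1) (S.C.χ i) (S.C.smooth i) f)) (S.C.mem i)
    (S.C.K_compact i) (S.C.K_subset i) (fun x hx => del_mulO_off S i f hx)]
  refine setIntegral_congr_fun (S.C.ch i).open_target.measurableSet fun y hy => ?_
  have h3 : loc (S.C.ch i) (mulO S (p + 1) (S.C.χ i) (S.C.smooth i) f).f =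
      fun z => S.x i z • loc (S.C.ch i) f.f z := by
    funext z
    exact loc_fs (S.C.ch i) (S.C.χ i) f.f z
  have h2 := loc_del S (mulO S (p + 1) (S.C.χ i) (S.C.smooth i) f) (S.C.mem i) hy
  rw [h3] at h2
  simp only [h2, loc_del S f (S.C.mem i) hy]

/-- `c0` of a smooth function is smooth -/
theorem smooth_c0 {U : Set (E n)} {u : E n → ℝ} (hu : ContDiffOn ℝ ∞ u U) :
    ContDiffOn ℝ ∞ (c0 u) U := by
  rw [contDiffOn_arr]
  intro I
  exact hu

/-- the integral of the curvature term is a lower bound -/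
theorem wz_le (S : Sys n M) (f : Om S (p + 1)) :
    ∑ i, ∫ y in (S.C.ch i).target, S.x i y * ipG (gmat (S.G i) y)
      (wz (S.G i) y (loc (S.C.ch i) f.f y)) (loc (S.C.ch i) f.f y) * vol (S.G i) y ≤
      ‖dO S (p + 1) f‖ ^ 2 + ‖del S p f‖ ^ 2 := by
  have hl0 : ∀ (q : ℕ) (g : Matrix (Fin n) (Fin n) ℝ) (c : Alt n q), ipG g 0 c = 0 := by
    intro q g c
    have := ipG_smul_left g 0 (0 : Alt n q) c
    rwa [zero_smul, zero_mul] at this
  have hr0 : ∀ (q : ℕ) (g : Matrix (Fin n) (Fin n) ℝ) (c : Alt n q), ipG g c 0 = 0 := by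
    intro q g c
    have := ipG_smul_right g 0 c (0 : Alt n q)
    rwa [zero_smul, zero_mul] at this
  have key : ∀ i, (1 / 2) * (∫ y in (S.C.ch i).target, ipG (gmat (S.G i) y)
      (extDeriv (c0 fun z => S.C.χ i ((S.C.ch i).symm z)) y)
      (extDeriv (c0 fun z => ipG (gmat (S.G i) z) (loc (S.C.ch i) f.f z)
        (loc (S.C.ch i) f.f z)) y) * vol (S.G i) y) +
      ∫ y in (S.C.ch i).target, S.x i y * ipG (gmat (S.G i) y)
        (wz (S.G i) y (loc (S.C.ch i) f.f y)) (loc (S.C.ch i) f.f y) * vol (S.G i) y ≤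
      (∫ y in (S.C.ch i).target,
        ipG (gmat (S.G i) y) (extDeriv (loc (S.C.ch i) f.f) y)
          (extDeriv (fun z => S.x i z • loc (S.C.ch i) f.f z) y) * vol (S.G i) y) +
      ∫ y in (S.C.ch i).target,
        ipG (gmat (S.G i) y) (codiff (S.G i) (loc (S.C.ch i) f.f) y)
          (codiff (S.G i) (fun z => S.x i z • loc (S.C.ch i) f.f z) y) * vol (S.G i) y := by
    intro i
    have hU := (S.C.ch i).open_target
    have hG : IsMet (S.C.ch i).target (S.G i) := isMet_gloc S.g (S.C.mem i)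
    have hf : ContDiffOn ℝ ∞ (loc (S.C.ch i) f.f) (S.C.ch i).target := f.smooth _ (S.C.mem i)
    have hχ : ContDiffOn ℝ ∞ (S.x i) (S.C.ch i).target := S.C.smooth i _ (S.C.mem i)
    have hoff : ∀ y ∈ (S.C.ch i).target, y ∉ S.C.K i → S.x i y = 0 := fun y hy h =>
      S.C.χ_off i hy h
    have hχf : ContDiffOn ℝ ∞ (fun z => S.x i z • loc (S.C.ch i) f.f z) (S.C.ch i).target :=
      hχ.smul hf
    have hoff2 : ∀ y ∈ (S.C.ch i).target, y ∉ S.C.K i → S.x i y • loc (S.C.ch i) f.f y = 0 :=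
      fun y hy h => by rw [hoff y hy h, zero_smul]
    have hoff3 : ∀ y ∈ (S.C.ch i).target, y ∉ S.C.K i → c0 (S.x i) y = 0 := by
      intro y hy h
      unfold c0
      rw [hoff y hy h]
      ext v
      rfl
    have hB := locB hU hG hf hχ (fun y => S.C.nonneg i _) (S.C.K_compact i) (S.C.K_subset i) hoff
    have hsq : ContDiffOn ℝ ∞ (fun z => ipG (gmat (S.G i) z) (loc (S.C.ch i) f.f z)
        (loc (S.C.ch i) f.f z)) (S.C.ch i).target := smooth_ipG hG hf hf
    have hI1 : IntegrableOn (fun y => ipG (gmat (S.G i) y) (extDeriv (c0 (S.x i)) y)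
        (extDeriv (c0 fun z => ipG (gmat (S.G i) z) (loc (S.C.ch i) f.f z)
          (loc (S.C.ch i) f.f z)) y) * vol (S.G i) y) (S.C.ch i).target := by
      refine integrableOn_supp hU ?_ (S.C.K_compact i) (S.C.K_subset i) ?_
      · exact ((smooth_ipG hG (contDiffOn_extDeriv hU (smooth_c0 hχ))
          (contDiffOn_extDeriv hU (smooth_c0 hsq))).mul hG.vol_smooth).continuousOn
      · intro y hy h
        rw [extDeriv_off hU (S.C.K_compact i) hoff3 hy h, hl0, zero_mul]
    have hI2 : IntegrableOn (fun y => S.x i y * ipG (gmat (S.G i) y)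
        (wz (S.G i) y (loc (S.C.ch i) f.f y)) (loc (S.C.ch i) f.f y) * vol (S.G i) y)
        (S.C.ch i).target := by
      refine integrableOn_supp hU ?_ (S.C.K_compact i) (S.C.K_subset i) ?_
      · exact (hχ.continuousOn.mul (wz_cont_form hU hG hf)).mul hG.vol_smooth.continuousOn
      · intro y hy h
        rw [hoff y hy h, zero_mul, zero_mul]
    have hI3 : IntegrableOn (fun y => ipG (gmat (S.G i) y) (extDeriv (loc (S.C.ch i) f.f) y)
        (extDeriv (fun z => S.x i z • loc (S.C.ch i) f.f z) y) * vol (S.G i) y)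
        (S.C.ch i).target := by
      refine integrableOn_supp hU ?_ (S.C.K_compact i) (S.C.K_subset i) ?_
      · exact ((smooth_ipG hG (contDiffOn_extDeriv hU hf)
          (contDiffOn_extDeriv hU hχf)).mul hG.vol_smooth).continuousOn
      · intro y hy h
        rw [extDeriv_off hU (S.C.K_compact i) hoff2 hy h, hr0, zero_mul]
    have hI4 : IntegrableOn (fun y => ipG (gmat (S.G i) y)
        (codiff (S.G i) (loc (S.C.ch i) f.f) y)
        (codiff (S.G i) (fun z => S.x i z • loc (S.C.ch i) f.f z) y) * vol (S.G i) y)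
        (S.C.ch i).target := by
      refine integrableOn_supp hU ?_ (S.C.K_compact i) (S.C.K_subset i) ?_
      · exact ((smooth_ipG hG (codiff_smooth hU hG hf)
          (codiff_smooth hU hG hχf)).mul hG.vol_smooth).continuousOn
      · intro y hy h
        rw [codiff_off hU (S.G i) (S.C.K_compact i) hoff2 hy h, hr0, zero_mul]
    rw [← integral_const_mul, ← integral_add (hI1.const_mul (1 / 2)) hI2, ← integral_add hI3 hI4]
    refine le_of_eq_of_le ?_ (hB.trans (le_of_eq ?_))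
    · refine setIntegral_congr_fun hU.measurableSet fun y _ => ?_
      change (1 / 2) * (ipG (gmat (S.G i) y) (extDeriv (c0 (S.x i)) y)
        (extDeriv (c0 fun z => ipG (gmat (S.G i) z) (loc (S.C.ch i) f.f z)
          (loc (S.C.ch i) f.f z)) y) * vol (S.G i) y) + _ = _
      ring
    · refine setIntegral_congr_fun hU.measurableSet fun y _ => ?_
      ring
  have hsum := Finset.sum_le_sum fun i (_ : i ∈ Finset.univ) => key i
  rw [Finset.sum_add_distrib, Finset.sum_add_distrib, ← Finset.mul_sum, sum_part_ip S f, mul_zero,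
    zero_add, ← norm_sq_dO S f, ← norm_sq_del S f] at hsum
  exact hsum

/-- THE GLOBAL ESTIMATE -/
theorem estimate (S : Sys n M) (p : ℕ)
    (h : ∀ e ∈ atlas (E n) M, ∀ y ∈ e.target, ∀ a : Alt n (p + 1), a ≠ 0 →
      0 < ipG (gmat (gloc e S.g) y) (wz (gloc e S.g) y a) a) :
    ∃ c : ℝ, 0 < c ∧ ∀ f : Om S (p + 1),
      c * ‖f‖ ^ 2 ≤ ‖dO S (p + 1) f‖ ^ 2 + ‖del S p f‖ ^ 2 := by
  obtain ⟨c, hc, H⟩ := wz_unif_cover S h
  refine ⟨c, hc, fun f => ?_⟩
  refine le_trans ?_ (wz_le S f)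
  rw [norm_sq_f S f, Finset.mul_sum]
  refine Finset.sum_le_sum fun i _ => ?_
  have hU := (S.C.ch i).open_target
  have hG : IsMet (S.C.ch i).target (S.G i) := isMet_gloc S.g (S.C.mem i)
  have hf : ContDiffOn ℝ ∞ (loc (S.C.ch i) f.f) (S.C.ch i).target := f.smooth _ (S.C.mem i)
  have hχ : ContDiffOn ℝ ∞ (S.x i) (S.C.ch i).target := S.C.smooth i _ (S.C.mem i)
  have hoff : ∀ y ∈ (S.C.ch i).target, y ∉ S.C.K i → S.x i y = 0 := fun y hy h =>
    S.C.χ_off i hy h
  rw [← integral_const_mul]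
  refine setIntegral_mono_on ?_ ?_ hU.measurableSet ?_
  · refine Integrable.const_mul ?_ c
    refine integrableOn_supp hU ?_ (S.C.K_compact i) (S.C.K_subset i) ?_
    · exact ((hχ.mul (smooth_ipG hG hf hf)).mul hG.vol_smooth).continuousOn
    · intro y hy h
      rw [hoff y hy h, zero_mul, zero_mul]
  · refine integrableOn_supp hU ?_ (S.C.K_compact i) (S.C.K_subset i) ?_
    · exact (hχ.continuousOn.mul (wz_cont_form hU hG hf)).mul hG.vol_smooth.continuousOn
    · intro y hy h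
      rw [hoff y hy h, zero_mul, zero_mul]
  · intro y hy
    by_cases hyK : y ∈ S.C.K i
    · have h1 := H i y hyK (loc (S.C.ch i) f.f y)
      have h2 : 0 ≤ S.x i y := S.C.nonneg i _
      have h3 : 0 ≤ vol (S.G i) y := (hG.vol_pos hy).le
      have h4 := mul_le_mul_of_nonneg_left h1 (mul_nonneg h2 h3)
      calc _ = S.x i y * vol (S.G i) y * (c * ipG (gmat (S.G i) y) (loc (S.C.ch i) f.f y)
          (loc (S.C.ch i) f.f y)) := by ring
        _ ≤ _ := h4
        _ = _ := by ring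
    · rw [hoff y hy hyK]
      simp

end BH
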