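import Pool.Agent.Lib.MP_4a593f_gt.BH.Gl.Loc

/-!
Row Gl/Del: the global codifferential `del`, defined as the adjoint of `dO`.
For `f : Om S (p+1)` the form `∑_i mk (ch i) (codiff (loc (χ_i f)))` is an adjoint value;
it is unique, so `del` is linear. No change of charts for `codiff` is needed.
-/

open scoped Manifold ContDiff Bundle Topology Matrix
open MeasureTheory

noncomputable section

universe u

namespace BH

variable {n p : ℕ} {M : Type u} [TopologicalSpace M] [ChartedSpace (E n) M]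
  [IsManifold 𝓘(ℝ, E n) ∞ M]

/-- the piece of `δ f` coming from the chart `i` -/
def dpc (S : Sys n M) (i : Fin S.C.N) (α : Form n M (p + 1)) : Form n M p :=
  mk (S.C.ch i) (codiff (gloc (S.C.ch i) S.g) (loc (S.C.ch i) (fs (S.C.χ i) α)))

variable [CompactSpace M] [T2Space M]

omit [T2Space M] in
/-- the function in the chart `i` vanishes outside `K_i` -/
theorem codiff_dpc_off (S : Sys n M) (i : Fin S.C.N) (α : Form n M (p + 1)) {y : E n}
    (hy : y ∈ (S.C.ch i).target) (h : y ∉ S.C.K i) :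
    codiff (gloc (S.C.ch i) S.g) (loc (S.C.ch i) (fs (S.C.χ i) α)) y = 0 :=
  codiff_off (S.C.ch i).open_target _ (S.C.K_compact i)
    (fun _ hz hzK => loc_fs_off S.C i α hz hzK) hy h

omit [CompactSpace M] [T2Space M] in
theorem smooth_codiff_dpc (S : Sys n M) (i : Fin S.C.N) {α : Form n M (p + 1)} (hα : Smooth α) :
    ContDiffOn ℝ ∞ (codiff (gloc (S.C.ch i) S.g) (loc (S.C.ch i) (fs (S.C.χ i) α)))
      (S.C.ch i).target :=
  codiff_smooth (S.C.ch i).open_target (isMet_gloc S.g (S.C.mem i))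
    (Smooth.fs (S.C.smooth i) hα _ (S.C.mem i))

theorem smooth_dpc (S : Sys n M) (i : Fin S.C.N) {α : Form n M (p + 1)} (hα : Smooth α) :
    Smooth (dpc S i α) :=
  smooth_mk (S.C.mem i) (S.C.K_compact i) (S.C.K_subset i) (smooth_codiff_dpc S i hα)
    fun _ hy h => codiff_dpc_off S i α hy h

/-- adjointness for the piece `χ_i f` (`inner_chart` on both sides and `codiff_adj`) -/
theorem inner_dpc (S : Sys n M) (i : Fin S.C.N) (a : Om S p) (f : Om S (p + 1)) :
    inner ℝ (dO S p a) (mulO S (p + 1) (S.C.χ i) (S.C.smooth i) f) =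
      inner ℝ a (Om.of S (dpc S i f.f) (smooth_dpc S i f.smooth)) := by
  have he := S.C.mem i
  have hK := S.C.K_compact i
  have hKt := S.C.K_subset i
  have ht := (S.C.ch i).open_target
  have hf : ContDiffOn ℝ ∞ (loc (S.C.ch i) (fs (S.C.χ i) f.f)) (S.C.ch i).target :=
    Smooth.fs (S.C.smooth i) f.smooth _ he
  rw [inner_chart (dO S p a) (mulO S (p + 1) (S.C.χ i) (S.C.smooth i) f) he hK hKt
      (fun x hx => fs_off S.C i f.f hx),
    inner_chart a (Om.of S (dpc S i f.f) (smooth_dpc S i f.smooth)) he hK hKt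
      (fun x hx => mk_supp (fun _ hy h => codiff_dpc_off S i f.f hy h) hx)]
  have h1 : ∀ y ∈ (S.C.ch i).target,
      ipG (gmat (gloc (S.C.ch i) S.g) y) (loc (S.C.ch i) (dO S p a).f y)
        (loc (S.C.ch i) (mulO S (p + 1) (S.C.χ i) (S.C.smooth i) f).f y) *
          vol (gloc (S.C.ch i) S.g) y =
      ipG (gmat (gloc (S.C.ch i) S.g) y) (extDeriv (loc (S.C.ch i) a.f) y)
        (loc (S.C.ch i) (fs (S.C.χ i) f.f) y) * vol (gloc (S.C.ch i) S.g) y := by
    intro y hy
    rw [dO_f, loc_dM a.smooth he hy]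
    rfl
  have h2 : ∀ y ∈ (S.C.ch i).target,
      ipG (gmat (gloc (S.C.ch i) S.g) y) (loc (S.C.ch i) a.f y)
        (loc (S.C.ch i) (Om.of S (dpc S i f.f) (smooth_dpc S i f.smooth)).f y) *
          vol (gloc (S.C.ch i) S.g) y =
      ipG (gmat (gloc (S.C.ch i) S.g) y) (loc (S.C.ch i) a.f y)
        (codiff (gloc (S.C.ch i) S.g) (loc (S.C.ch i) (fs (S.C.χ i) f.f)) y) *
          vol (gloc (S.C.ch i) S.g) y := by
    intro y hy
    rw [Om.f_of, dpc, loc_mk he _ hy]
  rw [setIntegral_congr_fun ht.measurableSet h1, setIntegral_congr_fun ht.measurableSet h2]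
  exact codiff_adj ht (isMet_gloc S.g he) (a.smooth _ he) hf hK hKt
    fun y hy hyK => Or.inr (loc_fs_off S.C i f.f hy hyK)

omit [CompactSpace M] [T2Space M] in
theorem Om.f_sum {S : Sys n M} {ι : Type*} (s : Finset ι) (a : ι → Om S p) :
    (∑ i ∈ s, a i).f = ∑ i ∈ s, (a i).f := by
  classical
  induction s using Finset.induction_on with
  | empty => rfl
  | insert i s hi ih => rw [Finset.sum_insert hi, Finset.sum_insert hi, Om.f_add, ih]

omit [CompactSpace M] [T2Space M] in
theorem sum_mulO (S : Sys n M) (f : Om S p) :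
    ∑ i, mulO S p (S.C.χ i) (S.C.smooth i) f = f := by
  refine Om.ext ?_
  rw [Om.f_sum]
  exact S.C.sum_fs f.f

theorem exists_adj (S : Sys n M) (p : ℕ) (f : Om S (p + 1)) :
    ∃ d : Om S p, ∀ a : Om S p, inner ℝ (dO S p a) f = inner ℝ a d := by
  refine ⟨∑ i, Om.of S (dpc S i f.f) (smooth_dpc S i f.smooth), fun a => ?_⟩
  have h1 := sum_mulO S f
  calc inner ℝ (dO S p a) f
      = inner ℝ (dO S p a) (∑ i, mulO S (p + 1) (S.C.χ i) (S.C.smooth i) f) := by rw [h1]
    _ = ∑ i, inner ℝ (dO S p a) (mulO S (p + 1) (S.C.χ i) (S.C.smooth i) f) := inner_sum _ _ _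
    _ = ∑ i, inner ℝ a (Om.of S (dpc S i f.f) (smooth_dpc S i f.smooth)) :=
        Finset.sum_congr rfl fun i _ => inner_dpc S i a f
    _ = inner ℝ a (∑ i, Om.of S (dpc S i f.f) (smooth_dpc S i f.smooth)) :=
        (inner_sum _ _ _).symm

/-- the codifferential, the adjoint of `dO` -/
def del (S : Sys n M) (p : ℕ) : Om S (p + 1) →ₗ[ℝ] Om S p where
  toFun f := (exists_adj S p f).choose
  map_add' f h := by
    refine ext_inner_left ℝ fun a => ?_
    rw [inner_add_right, ← (exists_adj S p (f + h)).choose_spec a,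
      ← (exists_adj S p f).choose_spec a, ← (exists_adj S p h).choose_spec a, inner_add_right]
  map_smul' c f := by
    refine ext_inner_left ℝ fun a => ?_
    rw [RingHom.id_apply, inner_smul_right, ← (exists_adj S p (c • f)).choose_spec a,
      ← (exists_adj S p f).choose_spec a, inner_smul_right]

theorem inner_dO (S : Sys n M) (p : ℕ) (a : Om S p) (f : Om S (p + 1)) :
    inner ℝ (dO S p a) f = inner ℝ a (del S p f) :=
  (exists_adj S p f).choose_spec a

end BH
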