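import Pool.Agent.Lib.MP_4a593f_gt.BH.Gl.Del

/-!
Row Gl/DelC: the codifferential in every chart of the atlas.
-/

open scoped Manifold ContDiff Bundle Topology Matrix
open MeasureTheory

noncomputable section

universe u

namespace BH

variable {n p : ℕ} {M : Type u} [TopologicalSpace M] [ChartedSpace (E n) M]
  [IsManifold 𝓘(ℝ, E n) ∞ M] [CompactSpace M] [T2Space M]

/-- the form on `M` of a smooth function with compact support in a chart -/
def mkO (S : Sys n M) (p : ℕ) {e : OpenPartialHomeomorph M (E n)} (he : e ∈ atlas (E n) M)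
    (a : E n → Alt n p) (ha : ContDiff ℝ ∞ a) (hc : HasCompactSupport a)
    (hs : tsupport a ⊆ e.target) : Om S p :=
  Om.of S (mk e a) (smooth_mk he hc.isCompact hs ha.contDiffOn fun y _ hy =>
    image_eq_zero_of_notMem_tsupport hy)

/-- the inner product with `mkO` -/
theorem inner_mkO (S : Sys n M) {e : OpenPartialHomeomorph M (E n)} (he : e ∈ atlas (E n) M)
    {a : E n → Alt n p} (ha : ContDiff ℝ ∞ a) (hc : HasCompactSupport a)
    (hs : tsupport a ⊆ e.target) (f : Om S p) :
    inner ℝ (mkO S p he a ha hc hs) f = ∫ y in e.target,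
      ipG (gmat (gloc e S.g) y) (a y) (loc e f.f y) * vol (gloc e S.g) y := by
  rw [real_inner_comm, inner_chart f (mkO S p he a ha hc hs) he hc.isCompact hs
    (fun x hx => mk_supp (fun y _ hy => image_eq_zero_of_notMem_tsupport hy) hx)]
  refine setIntegral_congr_fun e.open_target.measurableSet fun y hy => ?_
  have h1 : loc e (mkO S p he a ha hc hs).f y = a y := loc_mk he a hy
  show ipG _ _ (loc e (mkO S p he a ha hc hs).f y) * _ = _
  rw [h1, ipG_comm (gmat_symm (isMet_gloc S.g he) hy)]

theorem inner_dO_mkO (S : Sys n M) {e : OpenPartialHomeomorph M (E n)}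
    (he : e ∈ atlas (E n) M) {a : E n → Alt n p} (ha : ContDiff ℝ ∞ a)
    (hc : HasCompactSupport a) (hs : tsupport a ⊆ e.target) (f : Om S (p + 1)) :
    inner ℝ (dO S p (mkO S p he a ha hc hs)) f = ∫ y in e.target,
      ipG (gmat (gloc e S.g) y) (extDeriv a y) (loc e f.f y) * vol (gloc e S.g) y := by
  have h0 : ∀ y ∈ e.target, y ∉ tsupport a → a y = 0 :=
    fun y _ hy => image_eq_zero_of_notMem_tsupport hy
  have hd : (dO S p (mkO S p he a ha hc hs)).f = mk e (extDeriv a) :=
    dM_mk he hc.isCompact hs ha.contDiffOn h0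
  rw [real_inner_comm, inner_chart f (dO S p (mkO S p he a ha hc hs)) he hc.isCompact hs ?_]
  · refine setIntegral_congr_fun e.open_target.measurableSet fun y hy => ?_
    show ipG _ _ (loc e (dO S p (mkO S p he a ha hc hs)).f y) * _ = _
    rw [hd, loc_mk he _ hy, ipG_comm (gmat_symm (isMet_gloc S.g he) hy)]
  · intro x hx
    rw [hd] at hx
    exact mk_supp (fun y hy h => extDeriv_off e.open_target hc.isCompact h0 hy h) hx

/-- `del` in the chart `e` (`adj_unique` and `codiff_adj`) -/
theorem loc_del (S : Sys n M) (f : Om S (p + 1)) {e : OpenPartialHomeomorph M (E n)}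
    (he : e ∈ atlas (E n) M) {y : E n} (hy : y ∈ e.target) :
    loc e (del S p f).f y = codiff (gloc e S.g) (loc e f.f) y := by
  have hG := isMet_gloc S.g he
  refine adj_unique e.open_target hG ((del S p f).smooth e he)
    (codiff_smooth e.open_target hG (f.smooth e he)) ?_ y hy
  intro a ha hc hs
  rw [← inner_mkO S he ha hc hs (del S p f), ← inner_dO, inner_dO_mkO S he ha hc hs f]
  exact codiff_adj e.open_target hG ha.contDiffOn (f.smooth e he) hc.isCompact hs
    fun y _ h => Or.inl (image_eq_zero_of_notMem_tsupport h)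

/-- `del` is local -/
theorem del_off (S : Sys n M) (f : Om S (p + 1)) {O : Set M} (hO : IsOpen O)
    (h : ∀ x ∈ O, f.f x = 0) {x : M} (hx : x ∈ O) : (del S p f).f x = 0 := by
  have he := chart_mem_atlas (E n) x
  have hxs := mem_chart_source (E n) x
  refine eq_zero_of_loc he hxs ?_
  have hy : chartAt (E n) x x ∈ (chartAt (E n) x).target := mem_chart_target _ x
  rw [loc_del S f he hy]
  have hU : IsOpen ((chartAt (E n) x).target ∩ (chartAt (E n) x).symm ⁻¹' O) :=
    (chartAt (E n) x).isOpen_inter_preimage_symm hO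
  have h1 : codiff (gloc (chartAt (E n) x) S.g) (loc (chartAt (E n) x) f.f) (chartAt (E n) x x) =
      codiff (gloc (chartAt (E n) x) S.g) (fun _ => 0) (chartAt (E n) x x) := by
    refine codiff_congr hU (fun z hz => loc_off (h _ hz.2)) ⟨hy, ?_⟩
    show (chartAt (E n) x).symm (chartAt (E n) x x) ∈ O
    rwa [(chartAt (E n) x).left_inv hxs]
  rw [h1]
  exact codiff_off (K := ∅) isOpen_univ _ isCompact_empty (fun _ _ _ => rfl)
    (Set.mem_univ _) (Set.notMem_empty _)

theorem del_mulO_off (S : Sys n M) (i : Fin S.C.N) (f : Om S (p + 1)) {x : M}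
    (h : (del S p (mulO S (p + 1) (S.C.χ i) (S.C.smooth i) f)).f x ≠ 0) :
    x ∈ (S.C.ch i).symm '' S.C.K i := by
  by_contra hx
  rw [symm_image_K] at hx
  refine h (del_off S _ (isClosed_tsupport (S.C.χ i)).isOpen_compl (fun z hz => ?_) hx)
  by_contra hne
  have := fs_off S.C i f.f hne
  rw [symm_image_K] at this
  exact hz this

end BH
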