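import Pool.Agent.Lib.MP_4a593f_gt.BH.Int
import Pool.Agent.Lib.MP_4a593f_gt.BH.LDiv

/-!
Row Gl/Loc: locality of `d`, `loc`, and small lemmas on supports for part (G).
-/

open scoped Manifold ContDiff Bundle Topology Matrix
open MeasureTheory

noncomputable section

universe u

namespace BH

variable {n p : ℕ} {M : Type u} [TopologicalSpace M] [ChartedSpace (E n) M]

theorem loc_off {e : OpenPartialHomeomorph M (E n)} {α : Form n M p} {y : E n}
    (h : α (e.symm y) = 0) : loc e α y = 0 := by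
  unfold loc
  rw [h]
  ext v
  rfl

/-- a continuous function which vanishes outside a compact subset of `U` is integrable -/
theorem integrableOn_supp {U : Set (E n)} (hU : IsOpen U) {u : E n → ℝ} (hu : ContinuousOn u U)
    {K : Set (E n)} (hK : IsCompact K) (hKU : K ⊆ U) (h0 : ∀ y ∈ U, y ∉ K → u y = 0) :
    IntegrableOn u U := by
  have h1 : IntegrableOn u K := (hu.mono hKU).integrableOn_compact hK
  have h2 : IntegrableOn u (U \ K) := by
    have h3 : IntegrableOn (fun _ : E n => (0 : ℝ)) (U \ K) := integrableOn_zero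
    refine h3.congr_fun ?_ (hU.measurableSet.diff hK.measurableSet)
    intro y hy
    exact (h0 y hy.1 hy.2).symm
  refine (h1.union h2).mono_set ?_
  rw [Set.union_sdiff_self]
  exact Set.subset_union_right

/-- the exterior derivative of the zero function -/
theorem extDeriv_zero_fun (y : E n) : extDeriv (fun _ : E n => (0 : Alt n p)) y = 0 := by
  ext v
  simp [extDeriv, ContinuousAlternatingMap.alternatizeUncurryFin_apply]

/-- `extDeriv` is local -/
theorem extDeriv_off {U : Set (E n)} (hU : IsOpen U) {f : E n → Alt n p} {K : Set (E n)}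
    (hK : IsCompact K) (h0 : ∀ y ∈ U, y ∉ K → f y = 0) {y : E n} (hy : y ∈ U) (hyK : y ∉ K) :
    extDeriv f y = 0 := by
  have h1 : f =ᶠ[𝓝 y] fun _ => 0 := by
    filter_upwards [hU.mem_nhds hy, hK.isClosed.isOpen_compl.mem_nhds hyK] with z hz hzK
    exact h0 z hz hzK
  rw [h1.extDeriv_eq]
  exact extDeriv_zero_fun y

/-- `codiff` is local -/
theorem codiff_off {U : Set (E n)} (hU : IsOpen U) (G : Fin n → Fin n → E n → ℝ)
    {f : E n → Alt n (p + 1)} {K : Set (E n)}
    (hK : IsCompact K) (h0 : ∀ y ∈ U, y ∉ K → f y = 0) {y : E n} (hy : y ∈ U) (hyK : y ∉ K) :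
    codiff G f y = 0 := by
  have h1 : (fun z => vol G z • pb (gmat G z)⁻¹ (f z)) =ᶠ[𝓝 y]
      fun _ => (0 : Alt n (p + 1)) := by
    filter_upwards [hU.mem_nhds hy, hK.isClosed.isOpen_compl.mem_nhds hyK] with z hz hzK
    rw [h0 z hz hzK, pb_zero, smul_zero]
  have h2 : div0 (fun z => vol G z • pb (gmat G z)⁻¹ (f z)) y = 0 := by
    unfold div0 pdF
    rw [h1.fderiv_eq]
    refine Finset.sum_eq_zero fun k _ => ?_
    rw [fderiv_fun_const]
    exact map_zero (iot k)
  unfold codiff
  rw [h2, pb_zero, smul_zero]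

/-- in the chart `i` the form `χ_i α` vanishes outside `K_i` -/
theorem loc_fs_off (C : Cover n M) (i : Fin C.N) (α : Form n M p) {y : E n}
    (hy : y ∈ (C.ch i).target) (h : y ∉ C.K i) : loc (C.ch i) (fs (C.χ i) α) y = 0 := by
  rw [loc_fs, C.χ_off i hy h, zero_smul]

theorem symm_image_K (C : Cover n M) (i : Fin C.N) :
    (C.ch i).symm '' C.K i = tsupport (C.χ i) := by
  unfold Cover.K
  rw [Set.image_image]
  ext x
  constructor
  · rintro ⟨z, hz, rfl⟩
    have h1 := (C.ch i).left_inv (C.supp i hz)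
    simpa only [h1] using hz
  · intro hx
    exact ⟨x, hx, (C.ch i).left_inv (C.supp i hx)⟩

/-- `χ_i α` vanishes outside the support of `χ_i` -/
theorem fs_off (C : Cover n M) (i : Fin C.N) (α : Form n M p) {x : M}
    (h : fs (C.χ i) α x ≠ 0) : x ∈ (C.ch i).symm '' C.K i := by
  rw [symm_image_K]
  refine subset_tsupport _ fun h0 => h ?_
  change C.χ i x • α x = 0
  rw [h0, zero_smul]

/-- a form `mk e f` where `f` vanishes outside `K` -/
theorem mk_supp {e : OpenPartialHomeomorph M (E n)} {f : E n → Alt n p} {K : Set (E n)}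
    (h0 : ∀ y ∈ e.target, y ∉ K → f y = 0) {x : M} (h : mk e f x ≠ 0) : x ∈ e.symm '' K := by
  by_cases hx : x ∈ e.source
  · refine ⟨e x, ?_, e.left_inv hx⟩
    by_contra hk
    refine h ?_
    rw [mk_on hx, h0 _ (e.map_source hx) hk]
    ext v
    rfl
  · exact absurd (mk_off hx) h

variable [IsManifold 𝓘(ℝ, E n) ∞ M]

/-- a form vanishes at `x` if its expression in a chart vanishes at `e x` -/
theorem eq_zero_of_loc {e : OpenPartialHomeomorph M (E n)} (he : e ∈ atlas (E n) M)
    {α : Form n M p} {x : M} (hx : x ∈ e.source) (h : loc e α (e x) = 0) : α x = 0 := by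
  ext w
  have h2 := DFunLike.congr_fun h fun i =>
    (mfderiv 𝓘(ℝ, E n) 𝓘(ℝ, E n) e x (w i) : E n)
  have h3 : ∀ i, (mfderiv 𝓘(ℝ, E n) 𝓘(ℝ, E n) e.symm (e x)
      (mfderiv 𝓘(ℝ, E n) 𝓘(ℝ, E n) e x (w i)) : E n) = w i := fun i => mfderiv_symm_comp he hx (w i)
  have h4 : loc e α (e x)
      (fun i => (mfderiv 𝓘(ℝ, E n) 𝓘(ℝ, E n) e x (w i) : E n)) = α x w := by
    change α (e.symm (e x)) (fun i =>
      (mfderiv 𝓘(ℝ, E n) 𝓘(ℝ, E n) e.symm (e x)
      (mfderiv 𝓘(ℝ, E n) 𝓘(ℝ, E n) e x (w i)) : E n)) = α x w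
    rw [funext h3]
    exact form_congr (e.left_inv hx) α w
  rw [← h4]
  exact h2

/-- `d` is local -/
theorem dM_off {α : Form n M p} {O : Set M} (hO : IsOpen O) (h : ∀ x ∈ O, α x = 0) {x : M}
    (hx : x ∈ O) : dM α x = 0 := by
  have h1 : loc (chartAt (E n) x) α =ᶠ[𝓝 (chartAt (E n) x x)] fun _ => 0 := by
    have h2 : ContinuousAt (chartAt (E n) x).symm (chartAt (E n) x x) :=
      (chartAt (E n) x).continuousAt_symm (mem_chart_target (E n) x)
    have h3 : (chartAt (E n) x).symm (chartAt (E n) x x) ∈ O := by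
      rwa [(chartAt (E n) x).left_inv (mem_chart_source (E n) x)]
    filter_upwards [h2.eventually_mem (hO.mem_nhds h3)] with z hz
    exact loc_off (h _ hz)
  unfold dM
  rw [h1.extDeriv_eq, extDeriv_zero_fun]
  ext v
  rfl

/-- `d(χ_i α)` vanishes outside the support of `χ_i` -/
theorem dM_fs_off (C : Cover n M) (i : Fin C.N) (α : Form n M p) {x : M}
    (h : dM (fs (C.χ i) α) x ≠ 0) : x ∈ (C.ch i).symm '' C.K i := by
  rw [symm_image_K]
  by_contra hx
  refine h (dM_off (O := (tsupport (C.χ i))ᶜ) (isClosed_tsupport _).isOpen_compl ?_ hx)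
  intro z hz
  by_contra h0
  refine hz ?_
  have h1 := fs_off C i α h0
  rwa [symm_image_K] at h1

end BH
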